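import Pool.Agent.H539R3.SCC.Pos

/-!
# Single chain completeness of MTL, IMTL and ΠMTL

MTL and IMTL do not enjoy single chain completeness, ΠMTL does.

For MTL and IMTL we give two formulas `φ₁`, `φ₂` without common variables which are refuted in
five-element IMTL-chains, while every MTL-chain satisfies `φ₁` or `φ₂`. In both chains there are
elements with `x = ¬x` and `y = (y → x)`; such elements are unique in every MTL-chain, even
approximately. But in the first chain `x ≤ y ^ 2` and in the second chain `(x → y ^ 2) ^ 3 = 0`.

For ΠMTL, any family of chains embeds in one chain: omit the zeros, form the lexicographic product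
over a well-ordered index set (it is residuated, since the factors are cancellative), and add a
new zero.
-/

set_option autoImplicit false

namespace Pool.Agent.Results.MP_339e98_lc.SingleChain

open Pool.Agent.H539R3.SC

universe u

/-- **Single chain completeness of MTL, IMTL and ΠMTL.** `SCC.{u} L` says that the theorems of `L`
are exactly the tautologies of one `L`-chain (whose underlying type is in the universe `u`). -/
theorem result : ¬ SCC.{u} .MTL ∧ ¬ SCC.{u} .IMTL ∧ SCC.{u} .PiMTL :=
  ⟨not_scc_MTL, not_scc_IMTL, scc_PiMTL⟩

end Pool.Agent.Results.MP_339e98_lc.SingleChain
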